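import Pool.Agent.Y155.Gor.ROOT

/-!
# Noether normalisation of a prime ideal together with a primitive element
-/

set_option autoImplicit false

open Metric Set Topology Polynomial

namespace Pool.Agent.Y155.Gor

open Pool.Agent.W481 Pool.Agent.W327.F4 Pool.Agent.Y225.Gor

/-- a primitive element of a finite extension of domains, with denominators cleared -/
theorem prim {R A : Type*} [CommRing R] [IsDomain R] [CharZero R]
    [CommRing A] [IsDomain A] [Algebra R A] [FaithfulSMul R A] [Module.Finite R A] {m : ℕ}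
    (x : Fin m → A) :
    ∃ (θ : A) (Q : Fin m → R[X]) (δ : R), δ ≠ 0 ∧ ∀ j, algebraMap R A δ * x j = aeval θ (Q j) := by
  classical
  let K := FractionRing R
  let L := FractionRing A
  let φ : R →+* K := algebraMap R K
  have hφ : Function.Injective φ := IsFractionRing.injective _ _
  let _ : Algebra K L := FractionRing.liftAlgebra R L
  have : CharZero K := charZero_of_injective_algebraMap hφ
  have hfd : FiniteDimensional K L := Module.Finite.of_isLocalization R A (nonZeroDivisors R)
  have hinjA : Function.Injective (algebraMap A L) := IsFractionRing.injective A L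
  have hinjR : Function.Injective (algebraMap R L) := FaithfulSMul.algebraMap_injective R L
  have hcl : ∀ p : Polynomial K, ∃ (a : R) (p' : Polynomial R), a ≠ 0 ∧
      p'.map φ = C (φ a) * p := by
    intro p
    obtain ⟨a, ha, h⟩ := IsLocalization.integerNormalization_spec
      (nonZeroDivisors R) p
    refine ⟨a, _, nonZeroDivisors.ne_zero ha, h.trans ?_⟩
    rw [← smul_eq_C_mul]
    exact (algebraMap_smul K a p).symm
  have hden : ∀ y : L, ∃ (r : R) (a : A), r ≠ 0 ∧ algebraMap R L r * y = algebraMap A L a := by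
    intro y
    obtain ⟨a, b, hb, rfl⟩ := IsFractionRing.div_surjective (A := A) y
    have hint : IsIntegral R b := Algebra.IsIntegral.isIntegral b
    obtain ⟨r, hr, s, hs⟩ := hint.isAlgebraic.exists_nonzero_dvd hb
    refine ⟨r, s * a, hr, ?_⟩
    have hb0 : algebraMap A L b ≠ 0 := by
      rw [Ne, map_eq_zero_iff _ hinjA]
      exact nonZeroDivisors.ne_zero hb
    rw [IsScalarTower.algebraMap_apply R A L, hs, map_mul, map_mul, div_eq_mul_inv]
    linear_combination (algebraMap A L s * algebraMap A L a) * (mul_inv_cancel₀ hb0)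
  obtain ⟨α, hα⟩ := Field.exists_primitive_element K L
  obtain ⟨r, θ, hr, hθ⟩ := hden α
  set θ' : L := algebraMap A L θ with hθ'
  have hr' : algebraMap K L (φ r) ≠ 0 := by
    rw [← IsScalarTower.algebraMap_apply R K L, Ne, map_eq_zero_iff _ hinjR]
    exact hr
  have hmem : α ∈ IntermediateField.adjoin K {θ'} := by
    have h1 : α = (algebraMap K L (φ r))⁻¹ * θ' := by
      rw [← hθ, IsScalarTower.algebraMap_apply R K L]
      exact (inv_mul_cancel_left₀ hr' α).symm
    rw [h1]
    refine mul_mem (inv_mem (IntermediateField.algebraMap_mem _ _)) ?_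
    exact IntermediateField.mem_adjoin_simple_self K θ'
  have htopF : IntermediateField.adjoin K {θ'} = ⊤ := by
    rw [eq_top_iff, ← hα, IntermediateField.adjoin_simple_le_iff]
    exact hmem
  have hQ : ∀ j, ∃ (q : R[X]) (d : R), d ≠ 0 ∧ algebraMap R A d * x j = aeval θ q := by
    intro j
    have h1 : algebraMap A L (x j) ∈ (IntermediateField.adjoin K {θ'}).toSubalgebra := by
      rw [htopF]; trivial
    rw [IntermediateField.adjoin_simple_toSubalgebra_of_isAlgebraic
      (Algebra.IsAlgebraic.isAlgebraic θ'), Algebra.adjoin_singleton_eq_range_aeval] at h1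
    obtain ⟨p, hp⟩ := h1
    obtain ⟨d, q, hd, hq⟩ := hcl p
    refine ⟨q, d, hd, hinjA ?_⟩
    have h2 : aeval θ' (q.map φ) = algebraMap A L (aeval θ q) := by
      rw [aeval_map_algebraMap, hθ', aeval_algebraMap_apply]
    rw [← h2, hq, map_mul, map_mul, aeval_C]
    have hp' : aeval θ' p = algebraMap A L (x j) := hp
    rw [hp', ← IsScalarTower.algebraMap_apply R K L, ← IsScalarTower.algebraMap_apply R A L]
  choose q d hd hq using hQ
  refine ⟨θ, fun j => C (∏ i ∈ Finset.univ.erase j, d i) * q j, ∏ i, d i,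
    Finset.prod_ne_zero_iff.2 fun i _ => hd i, fun j => ?_⟩
  rw [map_mul, aeval_C, ← hq j, ← Finset.mul_prod_erase _ _ (Finset.mem_univ j), map_mul]
  ring

/-- Bezout identity for an irreducible monic polynomial and its derivative -/
theorem bezout_derivative {A : Type*} [CommRing A] [IsDomain A] [IsIntegrallyClosed A]
    [CharZero A] (f : A[X]) (hf : f.Monic) (hfi : Irreducible f) :
    ∃ (u v : A[X]) (D : A), D ≠ 0 ∧ u * f + v * derivative f = C D := by
  classical
  let K := FractionRing A
  let φ : A →+* K := algebraMap A K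
  have hφ : Function.Injective φ := IsFractionRing.injective _ _
  have hφ' : Function.Injective (Polynomial.map φ) := Polynomial.map_injective φ hφ
  have : CharZero K := charZero_of_injective_algebraMap hφ
  have hcl : ∀ p : Polynomial K, ∃ (a : A) (p' : Polynomial A), a ≠ 0 ∧
      p'.map φ = C (φ a) * p := by
    intro p
    obtain ⟨a, ha, h⟩ := IsLocalization.integerNormalization_spec (nonZeroDivisors A) p
    refine ⟨a, _, nonZeroDivisors.ne_zero ha, h.trans ?_⟩
    rw [← smul_eq_C_mul]
    exact (algebraMap_smul K a p).symm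
  have hirr : Irreducible (f.map φ) :=
    (hf.irreducible_iff_irreducible_map_fraction_map (K := K)).1 hfi
  obtain ⟨U, V, hUV⟩ := hirr.separable
  obtain ⟨a₁, u, ha₁, hu⟩ := hcl U
  obtain ⟨a₂, v, ha₂, hv⟩ := hcl V
  refine ⟨C a₂ * u, C a₁ * v, a₁ * a₂, mul_ne_zero ha₁ ha₂, hφ' ?_⟩
  simp only [Polynomial.map_add, Polynomial.map_mul, hu, hv, map_C, map_mul, ← derivative_map]
  linear_combination (C (φ a₁) * C (φ a₂)) * hUV

theorem alg_aux {m k : ℕ} {A : Type} [CommRing A] [IsDomain A] [Algebra ℂ A]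
    [Algebra (MvPolynomial (Fin k) ℂ) A] [IsScalarTower ℂ (MvPolynomial (Fin k) ℂ) A]
    [FaithfulSMul (MvPolynomial (Fin k) ℂ) A] [Module.Finite (MvPolynomial (Fin k) ℂ) A]
    (π : MvPolynomial (Fin m) ℂ →ₐ[ℂ] A) (hπ : Function.Surjective π) :
    ∃ (p : Fin k → MvPolynomial (Fin m) ℂ) (Θ : MvPolynomial (Fin m) ℂ)
      (f : Polynomial (MvPolynomial (Fin k) ℂ)) (Q : Fin m → Polynomial (MvPolynomial (Fin k) ℂ))
      (δ : MvPolynomial (Fin k) ℂ), f.Monic ∧ δ ≠ 0 ∧
      (∀ D : MvPolynomial (Fin k) ℂ, π (MvPolynomial.aeval p D) = 0 → D = 0) ∧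
      (∀ x : Fin m → ℂ, (∀ P, π P = 0 → MvPolynomial.eval x P = 0) →
        ev (fun i => MvPolynomial.eval x (p i)) (MvPolynomial.eval x Θ) f = 0 ∧
        ∀ j, MvPolynomial.eval (fun i => MvPolynomial.eval x (p i)) δ * x j =
          ev (fun i => MvPolynomial.eval x (p i)) (MvPolynomial.eval x Θ) (Q j)) ∧
      (∀ (z : Fin k → ℂ) (t : ℂ), MvPolynomial.eval z δ ≠ 0 → ev z t f = 0 →
        ev z t (Polynomial.derivative f) ≠ 0 ∧
        ∃ x : Fin m → ℂ, (∀ P, π P = 0 → MvPolynomial.eval x P = 0) ∧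
          (fun i => MvPolynomial.eval x (p i)) = z ∧ MvPolynomial.eval x Θ = t) := by
  classical
  have hinj : Function.Injective (algebraMap (MvPolynomial (Fin k) ℂ) A) :=
    FaithfulSMul.algebraMap_injective _ _
  choose p hp using fun i : Fin k =>
    hπ (algebraMap (MvPolynomial (Fin k) ℂ) A (MvPolynomial.X i))
  have hcomp : ∀ D : MvPolynomial (Fin k) ℂ,
      π (MvPolynomial.aeval p D) = algebraMap (MvPolynomial (Fin k) ℂ) A D := by
    intro D
    have h : π.comp (MvPolynomial.aeval p) = IsScalarTower.toAlgHom ℂ (MvPolynomial (Fin k) ℂ) A := by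
      apply MvPolynomial.algHom_ext
      intro i
      rw [AlgHom.comp_apply, MvPolynomial.aeval_X, hp]
      rfl
    exact congrArg (fun g => g D) h
  obtain ⟨θ, Q₀, δ₀, hδ₀, hQ₀⟩ := prim (R := MvPolynomial (Fin k) ℂ) (A := A)
    (fun j : Fin m => π (MvPolynomial.X j))
  obtain ⟨Θ, hΘ⟩ := hπ θ
  have hθ : IsIntegral (MvPolynomial (Fin k) ℂ) θ := Algebra.IsIntegral.isIntegral θ
  set f := minpoly (MvPolynomial (Fin k) ℂ) θ with hfdef
  have hfm : f.Monic := minpoly.monic hθ
  have hfi : Irreducible f := minpoly.irreducible hθ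
  obtain ⟨u, v, D, hD, huv⟩ := bezout_derivative f hfm hfi
  -- transfer to points
  have hpt : ∀ x : Fin m → ℂ, (∀ P, π P = 0 → MvPolynomial.eval x P = 0) →
      ∀ (a : MvPolynomial (Fin m) ℂ) (q : (MvPolynomial (Fin k) ℂ)[X]), π a = aeval θ q →
      MvPolynomial.eval x a =
        ev (fun i => MvPolynomial.eval x (p i)) (MvPolynomial.eval x Θ) q := by
    intro x hx a q haq
    set b : MvPolynomial (Fin m) ℂ :=
      q.eval₂ (MvPolynomial.aeval p : MvPolynomial (Fin k) ℂ →ₐ[ℂ] MvPolynomial (Fin m) ℂ).toRingHom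
        Θ with hb
    have h1 : π b = aeval θ q := by
      have h2 := Polynomial.hom_eval₂ q
        (MvPolynomial.aeval p : MvPolynomial (Fin k) ℂ →ₐ[ℂ] MvPolynomial (Fin m) ℂ).toRingHom
        π.toRingHom Θ
      have h3 : π.toRingHom.comp
          (MvPolynomial.aeval p : MvPolynomial (Fin k) ℂ →ₐ[ℂ] MvPolynomial (Fin m) ℂ).toRingHom =
          algebraMap (MvPolynomial (Fin k) ℂ) A := RingHom.ext hcomp
      rw [h3] at h2
      have h4 : π.toRingHom Θ = θ := hΘ
      rw [h4] at h2
      exact h2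
    have h2 : MvPolynomial.eval x (a - b) = 0 := by
      apply hx
      rw [map_sub, haq, h1, sub_self]
    rw [map_sub, sub_eq_zero] at h2
    rw [h2, hb, Polynomial.hom_eval₂, ev, eval_map]
    congr 1
    exact RingHom.ext fun c => eval_aeval_mv x p c
  refine ⟨p, Θ, f, fun j => C D * Q₀ j, δ₀ * D, hfm, mul_ne_zero hδ₀ hD, ?_, ?_, ?_⟩
  · intro D' hD'
    rw [hcomp] at hD'
    exact (map_eq_zero_iff _ hinj).1 hD'
  · intro x hx
    constructor
    · rw [← hpt x hx 0 f (by rw [map_zero, hfdef, minpoly.aeval]), map_zero]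
    · intro j
      have h1 : π (MvPolynomial.aeval p (δ₀ * D) * MvPolynomial.X j) = aeval θ (C D * Q₀ j) := by
        rw [map_mul, hcomp, map_mul, map_mul, aeval_C, ← hQ₀ j]
        ring
      have h2 := hpt x hx _ _ h1
      have h3 : MvPolynomial.eval x (MvPolynomial.aeval p (δ₀ * D) * MvPolynomial.X j) =
          MvPolynomial.eval (fun i => MvPolynomial.eval x (p i)) (δ₀ * D) * x j := by
        rw [RingHom.map_mul, eval_aeval_mv, MvPolynomial.eval_X]
      exact h3.symm.trans h2
  · intro z t hz hft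
    rw [map_mul] at hz
    constructor
    · intro h1
      have h2 := congrArg (ev z t) huv
      rw [ev_add, ev_mul, ev_mul, hft, h1, ev_C, mul_zero, mul_zero, add_zero] at h2
      exact right_ne_zero_of_mul hz h2.symm
    · let e : (MvPolynomial (Fin k) ℂ)[X] →+* ℂ := eval₂RingHom (MvPolynomial.eval z) t
      have he : ∀ q, e q = ev z t q := by
        intro q
        rw [ev, eval_map]; rfl
      have hesurj : Function.Surjective e := by
        intro c
        refine ⟨C (MvPolynomial.C c), ?_⟩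
        rw [he, ev_C, MvPolynomial.eval_C]
      have hPmax : (RingHom.ker e).IsMaximal := RingHom.ker_isMaximal_of_surjective e hesurj
      let _ : Algebra (MvPolynomial (Fin k) ℂ)[X] A :=
        (aeval θ : (MvPolynomial (Fin k) ℂ)[X] →ₐ[MvPolynomial (Fin k) ℂ] A).toRingHom.toAlgebra
      have hmapA : ∀ q : (MvPolynomial (Fin k) ℂ)[X], algebraMap _ A q = aeval θ q := fun q => rfl
      have hst : IsScalarTower (MvPolynomial (Fin k) ℂ) (MvPolynomial (Fin k) ℂ)[X] A :=
        .of_algebraMap_eq fun r => by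
          rw [hmapA, Polynomial.algebraMap_apply, Algebra.algebraMap_self_apply, aeval_C]
      have hint : Algebra.IsIntegral (MvPolynomial (Fin k) ℂ)[X] A :=
        Algebra.IsIntegral.tower_top (MvPolynomial (Fin k) ℂ)
      have hker : RingHom.ker (algebraMap (MvPolynomial (Fin k) ℂ)[X] A) ≤ RingHom.ker e := by
        intro q hq
        rw [RingHom.mem_ker, hmapA] at hq
        obtain ⟨w, hw⟩ := minpoly.isIntegrallyClosed_dvd hθ hq
        rw [RingHom.mem_ker, he, hw, ev_mul, hft, zero_mul]
      obtain ⟨N, hN, hNP⟩ := Ideal.exists_ideal_over_maximal_of_isIntegral (RingHom.ker e) hker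
      have hmemN : ∀ q : (MvPolynomial (Fin k) ℂ)[X], ev z t q = 0 → aeval θ q ∈ N := by
        intro q hq
        have h1 : q ∈ RingHom.ker e := by rw [RingHom.mem_ker, he, hq]
        rw [← hNP] at h1
        exact h1
      have hN' : (N.comap π.toRingHom).IsMaximal := Ideal.comap_isMaximal_of_surjective _ hπ
      obtain ⟨x, hx⟩ := (MvPolynomial.isMaximal_iff_eq_vanishingIdeal_singleton).1 hN'
      have hx' : ∀ P : MvPolynomial (Fin m) ℂ, π P ∈ N → MvPolynomial.eval x P = 0 := by
        intro P hP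
        have h1 : P ∈ N.comap π.toRingHom := hP
        rw [hx, MvPolynomial.mem_vanishingIdeal_singleton_iff] at h1
        exact h1
      refine ⟨x, ?_, ?_, ?_⟩
      · intro P hP
        apply hx'
        rw [hP]
        exact N.zero_mem
      · funext i
        have h1 : MvPolynomial.eval x (p i - MvPolynomial.C (z i)) = 0 := by
          apply hx'
          have h2 := hmemN (C (MvPolynomial.X i - MvPolynomial.C (z i))) (by
            rw [ev_C, map_sub, MvPolynomial.eval_X, MvPolynomial.eval_C, sub_self])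
          have h3 : π (p i - MvPolynomial.C (z i)) =
              aeval θ (C (MvPolynomial.X i - MvPolynomial.C (z i))) := by
            rw [aeval_C, map_sub, map_sub, hp]
            congr 1
            rw [← MvPolynomial.algebraMap_eq, ← MvPolynomial.algebraMap_eq, AlgHom.commutes,
              ← IsScalarTower.algebraMap_apply]
          rw [h3]
          exact h2
        rw [map_sub, MvPolynomial.eval_C, sub_eq_zero] at h1
        exact h1
      · have h1 : MvPolynomial.eval x (Θ - MvPolynomial.C t) = 0 := by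
          apply hx'
          have h2 := hmemN (X - C (MvPolynomial.C t)) (by
            rw [ev_sub, ev_X, ev_C, MvPolynomial.eval_C, sub_self])
          have h3 : π (Θ - MvPolynomial.C t) =
              aeval θ (X - C (MvPolynomial.C t) : (MvPolynomial (Fin k) ℂ)[X]) := by
            rw [map_sub, map_sub, aeval_X, aeval_C, hΘ]
            congr 1
            rw [← MvPolynomial.algebraMap_eq, ← MvPolynomial.algebraMap_eq, AlgHom.commutes,
              ← IsScalarTower.algebraMap_apply]
          rw [h3]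
          exact h2
        rw [map_sub, MvPolynomial.eval_C, sub_eq_zero] at h1
        exact h1

theorem alg_aux2 {m k : ℕ} {A : Type} [CommRing A] [IsDomain A] [Algebra ℂ A]
    (g : MvPolynomial (Fin k) ℂ →ₐ[ℂ] A) (hginj : Function.Injective g) (hgint : g.IsIntegral)
    (π : MvPolynomial (Fin m) ℂ →ₐ[ℂ] A) (hπ : Function.Surjective π) :
    ∃ (p : Fin k → MvPolynomial (Fin m) ℂ) (Θ : MvPolynomial (Fin m) ℂ)
      (f : Polynomial (MvPolynomial (Fin k) ℂ)) (Q : Fin m → Polynomial (MvPolynomial (Fin k) ℂ))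
      (δ : MvPolynomial (Fin k) ℂ), f.Monic ∧ δ ≠ 0 ∧
      (∀ D : MvPolynomial (Fin k) ℂ, π (MvPolynomial.aeval p D) = 0 → D = 0) ∧
      (∀ x : Fin m → ℂ, (∀ P, π P = 0 → MvPolynomial.eval x P = 0) →
        ev (fun i => MvPolynomial.eval x (p i)) (MvPolynomial.eval x Θ) f = 0 ∧
        ∀ j, MvPolynomial.eval (fun i => MvPolynomial.eval x (p i)) δ * x j =
          ev (fun i => MvPolynomial.eval x (p i)) (MvPolynomial.eval x Θ) (Q j)) ∧
      (∀ (z : Fin k → ℂ) (t : ℂ), MvPolynomial.eval z δ ≠ 0 → ev z t f = 0 →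
        ev z t (Polynomial.derivative f) ≠ 0 ∧
        ∃ x : Fin m → ℂ, (∀ P, π P = 0 → MvPolynomial.eval x P = 0) ∧
          (fun i => MvPolynomial.eval x (p i)) = z ∧ MvPolynomial.eval x Θ = t) := by
  let _ : Algebra (MvPolynomial (Fin k) ℂ) A := g.toRingHom.toAlgebra
  have hmap : ∀ q : MvPolynomial (Fin k) ℂ,
      algebraMap _ A q = g q := fun q => rfl
  have h1 : IsScalarTower ℂ (MvPolynomial (Fin k) ℂ) A :=
    .of_algebraMap_eq fun c => by rw [hmap, AlgHom.commutes]
  have h2 : FaithfulSMul (MvPolynomial (Fin k) ℂ) A :=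
    (faithfulSMul_iff_algebraMap_injective _ _).2 hginj
  have h4 : Algebra.IsIntegral (MvPolynomial (Fin k) ℂ) A := ⟨fun a => hgint a⟩
  have h5 : Algebra.FiniteType ℂ A := Algebra.FiniteType.of_surjective π hπ
  have h6 : Algebra.FiniteType (MvPolynomial (Fin k) ℂ) A :=
    Algebra.FiniteType.of_restrictScalars_finiteType ℂ (MvPolynomial (Fin k) ℂ) A
  have h3 : Module.Finite (MvPolynomial (Fin k) ℂ) A := Algebra.IsIntegral.finite
  exact alg_aux π hπ

theorem alg : S_ALG := by
  intro m I hI
  obtain ⟨k, -, g, hginj, hgint⟩ := exists_integral_inj_algHom_of_quotient I hI.ne_top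
  obtain ⟨p, Θ, f, Q, δ, a1, a2, a3, a4, a5⟩ :=
    alg_aux2 g hginj hgint (Ideal.Quotient.mkₐ ℂ I) (Ideal.Quotient.mkₐ_surjective ℂ I)
  have hk : ∀ P, (Ideal.Quotient.mkₐ ℂ I) P = 0 ↔ P ∈ I := fun P => Ideal.Quotient.eq_zero_iff_mem
  simp only [hk] at a3 a4 a5
  exact ⟨k, p, Θ, f, Q, δ, a1, a2, a3, a4, a5⟩

end Pool.Agent.Y155.Gor
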