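import Mathlib
import Pool.Agent.Helper540.Holo
import Pool.Agent.Y225.Gor.Defs

set_option autoImplicit false

/-! Job 335 (S00329): holomorphic charts of submanifolds of `ℂ^m`. -/

open Metric Set Topology Filter

namespace Pool.Agent.Y155.Gor

open Pool.Agent.Y225.Gor H113G

theorem chart : S_CHART := by
  intro m Y hsm p hp N hN
  obtain ⟨U, hU, hpU, k, F, hF, hsurj, hYU⟩ := hsm p hp
  set f' : (Fin m → ℂ) →L[ℂ] (Fin k → ℂ) := fderiv ℂ F p with hf'
  have hf's : Function.Surjective f' := hsurj p hpU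
  let K : Submodule ℂ (Fin m → ℂ) := LinearMap.ker (f' : (Fin m → ℂ) →ₗ[ℂ] (Fin k → ℂ))
  have hKmem : ∀ x, x ∈ K ↔ f' x = 0 := fun x => LinearMap.mem_ker
  obtain ⟨K', hK'⟩ := Submodule.exists_isCompl K
  let q : (Fin m → ℂ) →L[ℂ] K := LinearMap.toContinuousLinearMap (K.projectionOnto K' hK')
  have hq : ∀ x : K, q x = x := fun x => Submodule.projectionOnto_apply_left hK' x
  let L' : (Fin m → ℂ) →L[ℂ] (Fin k → ℂ) × K := f'.prod q
  have hL' : ∀ x, L' x = (f' x, q x) := fun x => rfl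
  have hinj : LinearMap.ker (L' : (Fin m → ℂ) →ₗ[ℂ] (Fin k → ℂ) × K) = ⊥ := by
    rw [LinearMap.ker_eq_bot']
    intro x hx
    have h1 : L' x = 0 := hx
    rw [hL', Prod.mk_eq_zero] at h1
    have h2 : x ∈ K := (hKmem x).mpr h1.1
    have h3 := hq ⟨x, h2⟩
    rw [h1.2] at h3
    exact (congrArg Subtype.val h3).symm
  have hrange : LinearMap.range (L' : (Fin m → ℂ) →ₗ[ℂ] (Fin k → ℂ) × K) = ⊤ := by
    rw [LinearMap.range_eq_top]
    rintro ⟨a, b⟩
    obtain ⟨x0, hx0⟩ := hf's a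
    refine ⟨x0 - (q x0 : Fin m → ℂ) + b, ?_⟩
    change L' _ = _
    rw [hL']
    have h1 : f' (q x0 : Fin m → ℂ) = 0 := (hKmem _).mp (q x0).2
    have h2 : f' (b : Fin m → ℂ) = 0 := (hKmem _).mp b.2
    rw [map_add, map_sub, map_add, map_sub, h1, h2, hx0, hq, hq, sub_zero, add_zero, sub_self,
      zero_add]
  let e' : (Fin m → ℂ) ≃L[ℂ] (Fin k → ℂ) × K := ContinuousLinearEquiv.ofBijective L' hinj hrange
  have he' : (e' : (Fin m → ℂ) →L[ℂ] (Fin k → ℂ) × K) = L' :=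
    ContinuousLinearEquiv.coe_ofBijective L' hinj hrange
  let Φ : (Fin m → ℂ) → (Fin k → ℂ) × K := fun x => (F x, q (x - p))
  have hFd : DifferentiableAt ℂ F p := hF.differentiableAt (hU.mem_nhds hpU)
  have hΦ' : HasFDerivAt Φ (e' : (Fin m → ℂ) →L[ℂ] (Fin k → ℂ) × K) p := by
    rw [he']
    apply HasFDerivAt.prodMk hFd.hasFDerivAt
    have h1 : HasFDerivAt (fun x : Fin m → ℂ => x - p) (ContinuousLinearMap.id ℂ _) p :=
      (hasFDerivAt_id p).sub_const p
    have h2 := q.hasFDerivAt.comp p h1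
    rw [ContinuousLinearMap.comp_id] at h2
    exact h2
  have hFc : ContDiffAt ℂ 1 F p := by
    have := Pool.Agent.Helper540.contDiffOn_of_differentiableOn hU hF 1
    exact_mod_cast this.contDiffAt (hU.mem_nhds hpU)
  have hΦc : ContDiffAt ℂ 1 Φ p := by
    apply ContDiffAt.prodMk hFc
    exact (q.contDiff.comp (contDiff_id.sub contDiff_const)).contDiffAt
  let e := hΦc.toOpenPartialHomeomorph Φ hΦ' one_ne_zero
  have heΦ : ∀ x, e x = Φ x := fun x => rfl
  have hps : p ∈ e.source := hΦc.mem_toOpenPartialHomeomorph_source hΦ' one_ne_zero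
  have hFp : F p = 0 := by
    have : p ∈ U ∩ F ⁻¹' {0} := by rw [← hYU]; exact ⟨hp, hpU⟩
    exact this.2
  have hΦp : Φ p = 0 := by
    simp only [Φ, hFp, sub_self, map_zero]
    rfl
  have hG0 : e.symm 0 = p := by
    rw [← hΦp, ← heΦ]
    exact e.left_inv hps
  have hGc : ContDiffAt ℂ 1 e.symm 0 := by
    have := hΦc.to_localInverse hΦ' one_ne_zero
    rw [hΦp] at this
    exact this
  have hev : ∀ᶠ z in 𝓝 (0 : (Fin k → ℂ) × K), ContDiffAt ℂ 1 e.symm z ∧ z ∈ e.target ∧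
      e.symm z ∈ U ∩ interior N := by
    have h1 := hGc.eventually (by norm_num)
    have h2 : e.target ∈ 𝓝 (0 : (Fin k → ℂ) × K) := by
      apply e.open_target.mem_nhds
      rw [← hΦp, ← heΦ]
      exact e.map_source hps
    have h3 : ∀ᶠ z in 𝓝 (0 : (Fin k → ℂ) × K), e.symm z ∈ U ∩ interior N := by
      apply hGc.continuousAt.eventually
      rw [hG0]
      exact (hU.inter isOpen_interior).mem_nhds ⟨hpU, mem_interior_iff_mem_nhds.mpr hN⟩
    exact h1.and (Filter.Eventually.and h2 h3)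
  obtain ⟨ε, hε, hball⟩ := Metric.eventually_nhds_iff_ball.mp hev
  let n := Module.finrank ℂ K
  let e0 : (Fin n → ℂ) ≃L[ℂ] K := (Module.finBasis ℂ K).equivFun.symm.toContinuousLinearEquiv
  set C : ℝ := ‖(e0 : (Fin n → ℂ) →L[ℂ] K)‖ with hC
  have hC0 : 0 ≤ C := by rw [hC]; positivity
  set r : ℝ := ε / (C + 1) with hr
  have hrpos : 0 < r := by positivity
  have hr0 : (r : ℂ) ≠ 0 := by exact_mod_cast hrpos.ne'
  have hin : ∀ x ∈ ball (0 : Fin n → ℂ) 1, ((0 : Fin k → ℂ), (r : ℂ) • e0 x) ∈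
      ball (0 : (Fin k → ℂ) × K) ε := by
    intro x hx
    rw [mem_ball_zero_iff] at hx ⊢
    rw [Prod.norm_mk, norm_zero, max_eq_right (norm_nonneg _), norm_smul, Complex.norm_real,
      Real.norm_of_nonneg hrpos.le]
    have h1 : ‖e0 x‖ ≤ C * ‖x‖ := (e0 : (Fin n → ℂ) →L[ℂ] K).le_opNorm x
    have h2 : ‖e0 x‖ ≤ C := h1.trans (by nlinarith)
    calc r * ‖e0 x‖ ≤ r * C := by gcongr
      _ < r * (C + 1) := by
          apply mul_lt_mul_of_pos_left _ hrpos
          linarith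
      _ = ε := by rw [hr]; field_simp
  let κ : (Fin m → ℂ) → (Fin n → ℂ) := fun y => e0.symm ((r : ℂ)⁻¹ • q (y - p))
  have hκc : Continuous κ := by
    have h1 : Continuous fun y : Fin m → ℂ => q (y - p) :=
      q.continuous.comp (continuous_id.sub continuous_const)
    exact e0.symm.continuous.comp (h1.fun_const_smul _)
  let ψ : (Fin n → ℂ) → (Fin m → ℂ) := fun x => e.symm ((0 : Fin k → ℂ), (r : ℂ) • e0 x)
  have hΦψ : ∀ x ∈ ball (0 : Fin n → ℂ) 1, Φ (ψ x) = ((0 : Fin k → ℂ), (r : ℂ) • e0 x) := by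
    intro x hx
    rw [← heΦ]
    exact e.right_inv (hball _ (hin x hx)).2.1
  have hκψ : ∀ x ∈ ball (0 : Fin n → ℂ) 1, κ (ψ x) = x := by
    intro x hx
    have h1 : q (ψ x - p) = (r : ℂ) • e0 x := congrArg Prod.snd (hΦψ x hx)
    simp only [κ]
    rw [h1, smul_smul, inv_mul_cancel₀ hr0, one_smul, e0.symm_apply_apply]
  have hψU : ∀ x ∈ ball (0 : Fin n → ℂ) 1, ψ x ∈ U ∩ interior N := fun x hx =>
    (hball _ (hin x hx)).2.2
  have hψY : ∀ x ∈ ball (0 : Fin n → ℂ) 1, ψ x ∈ Y := by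
    intro x hx
    have h1 : F (ψ x) = 0 := congrArg Prod.fst (hΦψ x hx)
    have h2 : ψ x ∈ U ∩ F ⁻¹' {0} := ⟨(hψU x hx).1, h1⟩
    rw [← hYU] at h2
    exact h2.1
  refine ⟨n, ψ, κ, e.source ∩ (U ∩ interior N) ∩ κ ⁻¹' ball 0 1, ?_, ?_, ?_, ?_, ?_, ?_,
    hκc.continuousOn, hκψ⟩
  · exact (e.open_source.inter (hU.inter isOpen_interior)).inter (isOpen_ball.preimage hκc)
  · refine ⟨⟨hps, hpU, mem_interior_iff_mem_nhds.mpr hN⟩, ?_⟩
    change κ p ∈ ball 0 1
    simp only [κ, sub_self, map_zero, smul_zero]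
    exact mem_ball_self one_pos
  · intro y hy
    exact interior_subset hy.1.2.2
  · intro x hx
    have h1 : DifferentiableAt ℂ e.symm ((0 : Fin k → ℂ), (r : ℂ) • e0 x) :=
      (hball _ (hin x hx)).1.differentiableAt one_ne_zero
    have h2 : DifferentiableAt ℂ (fun x : Fin n → ℂ => ((0 : Fin k → ℂ), (r : ℂ) • e0 x)) x := by
      apply DifferentiableAt.prodMk (differentiableAt_const _)
      exact e0.differentiableAt.fun_const_smul _
    exact (DifferentiableAt.comp (g := e.symm) x h1 h2).differentiableWithinAt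
  · change e.symm ((0 : Fin k → ℂ), (r : ℂ) • e0 0) = p
    rw [map_zero, smul_zero]
    exact hG0
  · ext y
    constructor
    · rintro ⟨x, hx, rfl⟩
      refine ⟨hψY x hx, ⟨⟨e.map_target (hball _ (hin x hx)).2.1, hψU x hx⟩, ?_⟩⟩
      change κ (ψ x) ∈ ball 0 1
      rw [hκψ x hx]
      exact hx
    · rintro ⟨hy, ⟨⟨hys, hyU⟩, hyκ⟩⟩
      refine ⟨κ y, hyκ, ?_⟩
      have h1 : F y = 0 := by
        have : y ∈ U ∩ F ⁻¹' {0} := by rw [← hYU]; exact ⟨hy, hyU.1⟩
        exact this.2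
      have h2 : ((0 : Fin k → ℂ), (r : ℂ) • e0 (κ y)) = Φ y := by
        simp only [κ, Φ, h1]
        rw [e0.apply_symm_apply, smul_smul, mul_inv_cancel₀ hr0, one_smul]
      change e.symm ((0 : Fin k → ℂ), (r : ℂ) • e0 (κ y)) = y
      rw [h2, ← heΦ]
      exact e.left_inv hys

end Pool.Agent.Y155.Gor
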