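import Mathlib
import Pool.Agent.Y155.RL.DIV
import Pool.Agent.Y225.Gor.Defs

set_option autoImplicit false

/-! Job 336 (S00329): identity theorem and extension of logarithms across hypersurfaces. -/

open Metric Set Topology Filter

namespace Pool.Agent.Y155.Gor

open Pool.Agent.Y225.Gor H113G

/-- identity theorem on convex open sets -/
lemma ident_convex {E : Type*} [NormedAddCommGroup E] [NormedSpace ℂ E] {D : Set E}
    (hDo : IsOpen D) (hD : Convex ℝ D) {f : E → ℂ} (hf : DifferentiableOn ℂ f D) {x₁ : E}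
    (hx₁ : x₁ ∈ D) (h0 : ∀ᶠ x in 𝓝 x₁, f x = 0) : ∀ x ∈ D, f x = 0 := by
  intro x hx
  set u := x - x₁ with hu
  have hcont : Continuous (fun t : ℂ => x₁ + t • u) := by fun_prop
  let D0 : Set ℂ := (fun t : ℂ => x₁ + t • u) ⁻¹' D
  have hD0 : IsOpen D0 := hDo.preimage hcont
  have hconv : Convex ℝ D0 := by
    intro a ha b hb s t hs ht hst
    have h1 : x₁ + (s • a + t • b) • u = s • (x₁ + a • u) + t • (x₁ + b • u) := by
      have h2 : x₁ = s • x₁ + t • x₁ := by rw [← add_smul, hst, one_smul]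
      conv_lhs => rw [h2]
      rw [add_smul, smul_add, smul_add, smul_assoc, smul_assoc]
      abel
    change x₁ + (s • a + t • b) • u ∈ D
    rw [h1]
    exact hD ha hb hs ht hst
  have h00 : (0 : ℂ) ∈ D0 := by
    change x₁ + (0 : ℂ) • u ∈ D
    rw [zero_smul, add_zero]
    exact hx₁
  have h01 : (1 : ℂ) ∈ D0 := by
    change x₁ + (1 : ℂ) • u ∈ D
    rw [one_smul, hu, add_sub_cancel]
    exact hx
  have hψa : AnalyticOnNhd ℂ (fun t : ℂ => f (x₁ + t • u)) D0 := by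
    apply DifferentiableOn.analyticOnNhd _ hD0
    intro t ht
    have h1 : DifferentiableAt ℂ f (x₁ + t • u) := hf.differentiableAt (hDo.mem_nhds ht)
    have h2 : DifferentiableAt ℂ (fun t : ℂ => x₁ + t • u) t := by fun_prop
    exact (h1.comp t h2).differentiableWithinAt
  have hev : ∀ᶠ t in 𝓝 (0 : ℂ), f (x₁ + t • u) = 0 := by
    have h1 : Tendsto (fun t : ℂ => x₁ + t • u) (𝓝 0) (𝓝 x₁) := by
      have := hcont.tendsto 0
      simpa using this
    exact h1.eventually h0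
  have h2 := hψa.eqOn_zero_of_preconnected_of_eventuallyEq_zero hconv.isPreconnected h00 hev h01
  simp only [one_smul, hu, add_sub_cancel, Pi.zero_apply] at h2
  exact h2

/-- composition of a holomorphic function on `Y` with a chart -/
lemma hol_comp_chart {m n : ℕ} {Y : Set (Fin m → ℂ)} {φ : (Fin m → ℂ) → ℂ} (hφ : HolOn Y φ)
    {ψ : (Fin n → ℂ) → (Fin m → ℂ)} (hψ : DifferentiableOn ℂ ψ (ball 0 1))
    (hY : ∀ x ∈ ball (0 : Fin n → ℂ) 1, ψ x ∈ Y) :
    DifferentiableOn ℂ (fun x => φ (ψ x)) (ball 0 1) := by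
  intro x hx
  obtain ⟨U, hU, hxU, h, hh, hhφ⟩ := hφ (ψ x) (hY x hx)
  have hψx : DifferentiableAt ℂ ψ x := hψ.differentiableAt (isOpen_ball.mem_nhds hx)
  have h1 : DifferentiableAt ℂ (fun x => h (ψ x)) x :=
    DifferentiableAt.comp (g := h) x (hh.differentiableAt (hU.mem_nhds hxU)) hψx
  have h2 : (fun x => φ (ψ x)) =ᶠ[𝓝 x] fun x => h (ψ x) := by
    have h3 : ∀ᶠ x' in 𝓝 x, ψ x' ∈ U := hψx.continuousAt.eventually (hU.mem_nhds hxU)
    filter_upwards [h3, isOpen_ball.mem_nhds hx] with x' h4 h5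
    exact (hhφ _ (hY x' h5) h4).symm
  exact (h1.congr_of_eventuallyEq h2).differentiableWithinAt

theorem ident : S_IDENT := by
  intro m Y hch hpre φ hφ V hV hVne h0
  -- the open set where `φ` vanishes locally on `Y`
  let U1 : Set (Fin m → ℂ) := ⋃₀ {U | IsOpen U ∧ ∀ z ∈ Y ∩ U, φ z = 0}
  let U2 : Set (Fin m → ℂ) := ⋃₀ {U | IsOpen U ∧ Y ∩ U ∩ U1 = ∅}
  have hU1 : IsOpen U1 := isOpen_sUnion fun U hU => hU.1
  have hU2 : IsOpen U2 := isOpen_sUnion fun U hU => hU.1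
  have hU1φ : ∀ y ∈ Y ∩ U1, φ y = 0 := by
    rintro y ⟨hy, U, hU, hyU⟩
    exact hU.2 y ⟨hy, hyU⟩
  have hcov : Y ⊆ U1 ∪ U2 := by
    intro y hy
    by_cases hy1 : y ∈ U1
    · exact Or.inl hy1
    · right
      obtain ⟨n, ψ, κ, W, hW, hyW, -, hψ, hψ0, hψW, hκ, hκψ⟩ := hch y hy univ univ_mem
      refine ⟨W, ⟨hW, ?_⟩, hyW⟩
      by_contra hne
      obtain ⟨z, ⟨hzY, hzW⟩, hzU⟩ := Set.nonempty_iff_ne_empty.mpr hne
      apply hy1
      have hmem : ∀ x ∈ ball (0 : Fin n → ℂ) 1, ψ x ∈ Y ∩ W := by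
        intro x hx
        rw [← hψW]
        exact mem_image_of_mem _ hx
      have hf := hol_comp_chart hφ hψ (fun x hx => (hmem x hx).1)
      obtain ⟨x1, hx1, rfl⟩ : z ∈ ψ '' ball 0 1 := by
        rw [hψW]; exact ⟨hzY, hzW⟩
      have hev : ∀ᶠ x in 𝓝 x1, φ (ψ x) = 0 := by
        have hc : ContinuousAt ψ x1 :=
          (hψ.differentiableAt (isOpen_ball.mem_nhds hx1)).continuousAt
        filter_upwards [hc.eventually (hU1.mem_nhds hzU), isOpen_ball.mem_nhds hx1] with x h1 h2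
        exact hU1φ _ ⟨(hmem x h2).1, h1⟩
      have hall := ident_convex isOpen_ball (convex_ball _ _) hf hx1 hev
      refine ⟨W, ⟨hW, ?_⟩, hyW⟩
      rintro w hw
      rw [← hψW] at hw
      obtain ⟨x, hx, rfl⟩ := hw
      exact hall x hx
  have hne1 : (Y ∩ U1).Nonempty := by
    obtain ⟨y, hy⟩ := hVne
    exact ⟨y, hy.1, V, ⟨hV, h0⟩, hy.2⟩
  intro y hy
  rcases hcov hy with h | h
  · exact hU1φ y ⟨hy, h⟩
  · exfalso
    obtain ⟨z, hzY, hz1, U, hU, hzU⟩ := hpre U1 U2 hU1 hU2 hcov hne1 ⟨y, hy, h⟩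
    have : z ∈ Y ∩ U ∩ U1 := ⟨⟨hzY, hzU⟩, hz1⟩
    rw [hU.2] at this
    exact this

/-- a continuous integer valued function off the zeros of a holomorphic function on a convex open
subset of `ℂ` is constant -/
lemma int_const_one {D : Set ℂ} (hD : IsOpen D) (hDc : Convex ℝ D) {g k : ℂ → ℂ}
    (hg : DifferentiableOn ℂ g D) (hk : ContinuousOn k {t | t ∈ D ∧ g t ≠ 0})
    (hint : ∀ t, t ∈ D → g t ≠ 0 → ∃ n : ℤ, k t = n) {t₁ t₂ : ℂ} (h₁ : t₁ ∈ D) (h₂ : t₂ ∈ D)
    (g₁ : g t₁ ≠ 0) (g₂ : g t₂ ≠ 0) : k t₁ = k t₂ := by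
  classical
  have hSo : IsOpen {t | t ∈ D ∧ g t ≠ 0} :=
    hg.continuousOn.isOpen_inter_preimage hD (isOpen_compl_singleton (x := (0 : ℂ)))
  -- `k` is locally constant
  have hloc : ∀ t, t ∈ D → g t ≠ 0 → ∀ᶠ s in 𝓝 t, s ∈ D ∧ g s ≠ 0 ∧ k s = k t := by
    intro t ht hgt
    have hS := hSo.mem_nhds (show t ∈ {t | t ∈ D ∧ g t ≠ 0} from ⟨ht, hgt⟩)
    have hc : ContinuousAt k t := hk.continuousAt hS
    have h1 : ∀ᶠ s in 𝓝 t, ‖k s - k t‖ < 1 := by
      have := (Metric.continuousAt_iff'.mp hc) 1 one_pos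
      simpa [dist_eq_norm] using this
    filter_upwards [hS, h1] with s hs hs1
    refine ⟨hs.1, hs.2, ?_⟩
    obtain ⟨a, ha⟩ := hint s hs.1 hs.2
    obtain ⟨b, hb⟩ := hint t ht hgt
    rw [ha, hb] at hs1 ⊢
    rw [← Int.cast_sub, Complex.norm_intCast] at hs1
    have : |a - b| < 1 := by exact_mod_cast hs1
    have h2 : a - b = 0 := Int.abs_lt_one_iff.mp this
    have h3 : a = b := by omega
    rw [h3]
  let q : ℂ → ℂ := fun t => (k t + 1 / 2)⁻¹
  have hqb : ∀ t, t ∈ D → g t ≠ 0 → ‖q t‖ ≤ 2 := by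
    intro t ht hgt
    obtain ⟨a, ha⟩ := hint t ht hgt
    simp only [q]
    rw [ha, norm_inv]
    have h1 : (1 / 2 : ℝ) ≤ ‖(a : ℂ) + 1 / 2‖ := by
      have h2 : ((a : ℂ) + 1 / 2) = (((a : ℝ) + 1 / 2 : ℝ) : ℂ) := by push_cast; ring
      rw [h2, Complex.norm_real, Real.norm_eq_abs]
      rcases le_or_gt 0 a with h | h
      · have : (0 : ℝ) ≤ a := by exact_mod_cast h
        rw [abs_of_nonneg (by linarith)]
        linarith
      · have : (a : ℝ) ≤ -1 := by exact_mod_cast (by omega : a ≤ -1)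
        rw [abs_of_nonpos (by linarith)]
        linarith
    rw [inv_le_comm₀ (by linarith) (by norm_num)]
    linarith
  let A : ℂ → ℂ := fun t => if g t = 0 then 0 else q t * g t ^ 2
  have hAb : ∀ t ∈ D, ‖A t‖ ≤ 2 * ‖g t ^ 2‖ := by
    intro t ht
    simp only [A]
    split_ifs with h
    · rw [norm_zero]; positivity
    · rw [norm_mul]
      exact mul_le_mul_of_nonneg_right (hqb t ht h) (norm_nonneg _)
  have hAd : DifferentiableOn ℂ A D := by
    intro t ht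
    apply DifferentiableAt.differentiableWithinAt
    by_cases hgt : g t = 0
    · -- a zero of `g`
      have hgd : DifferentiableAt ℂ g t := hg.differentiableAt (hD.mem_nhds ht)
      have hA0 : A t = 0 := if_pos hgt
      have h1 : (fun s => g s) =O[𝓝 t] fun s => s - t := by
        have := hgd.isBigO_sub
        simpa [hgt] using this
      have h2 : A =O[𝓝 t] fun s => (s - t) ^ 2 := by
        have h3 : A =O[𝓝 t] fun s => g s ^ 2 := by
          apply Asymptotics.IsBigO.of_bound 2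
          filter_upwards [hD.mem_nhds ht] with s hs
          exact hAb s hs
        exact h3.trans (h1.pow 2)
      have h4 : HasDerivAt A 0 t := by
        rw [hasDerivAt_iff_isLittleO]
        simp only [hA0, sub_zero, smul_zero]
        refine h2.trans_isLittleO ?_
        have h5 : (fun s : ℂ => (s - t) ^ 2) =o[𝓝 t] fun s => (s - t) ^ 1 := by
          have h6 : Tendsto (fun s : ℂ => s - t) (𝓝 t) (𝓝 0) := by
            have : Tendsto (fun s : ℂ => s - t) (𝓝 t) (𝓝 (t - t)) :=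
              Continuous.tendsto (by fun_prop) t
            rwa [sub_self] at this
          exact (Asymptotics.isLittleO_pow_pow (𝕜 := ℂ) (show 1 < 2 by norm_num)).comp_tendsto h6
        simpa using h5
      exact h4.differentiableAt
    · have h1 : A =ᶠ[𝓝 t] fun s => q t * g s ^ 2 := by
        filter_upwards [hloc t ht hgt] with s hs
        simp only [A, if_neg hs.2.1, q, hs.2.2]
      refine DifferentiableAt.congr_of_eventuallyEq ?_ h1
      exact ((hg.differentiableAt (hD.mem_nhds ht)).pow 2).const_mul _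
  obtain ⟨χ, hχd, -, hχ⟩ := Pool.Agent.Y155.RL.quot_one hD hDc.isPreconnected hAd
    (hg.pow 2) ⟨t₁, h₁, pow_ne_zero 2 g₁⟩ (K := 2) (fun t ht => by
      refine (hAb t ht).trans ?_
      have h1 : (0 : ℝ) ≤ |Real.log ‖(g ^ 2) t‖| := abs_nonneg _
      have h2 : 0 ≤ 2 * ‖g t ^ 2‖ := by positivity
      have h3 : (g ^ 2) t = g t ^ 2 := rfl
      rw [h3] at h1 ⊢
      nlinarith)
  have hχq : ∀ t, g t ≠ 0 → χ t = q t := by
    intro t hgt
    rw [hχ t (pow_ne_zero 2 hgt)]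
    simp only [A, if_neg hgt]
    have h3 : (g ^ 2) t = g t ^ 2 := rfl
    rw [h3, mul_div_cancel_right₀ _ (pow_ne_zero 2 hgt)]
  have hχa : AnalyticOnNhd ℂ χ D := hχd.analyticOnNhd hD
  have hev : χ =ᶠ[𝓝 t₁] fun _ => q t₁ := by
    filter_upwards [hloc t₁ h₁ g₁] with s hs
    rw [hχq s hs.2.1]
    simp only [q, hs.2.2]
  have h3 := hχa.eqOn_of_preconnected_of_eventuallyEq analyticOnNhd_const hDc.isPreconnected h₁
    hev h₂
  simp only at h3
  rw [hχq t₂ g₂] at h3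
  simp only [q] at h3
  have h4 := inv_injective h3
  exact (add_right_cancel h4).symm

/-- the same in several variables -/
lemma int_const {E : Type*} [NormedAddCommGroup E] [NormedSpace ℂ E] {D : Set E}
    (hDo : IsOpen D) (hD : Convex ℝ D) {f k : E → ℂ} (hf : DifferentiableOn ℂ f D)
    (hk : ContinuousOn k {x | x ∈ D ∧ f x ≠ 0}) (hint : ∀ x, x ∈ D → f x ≠ 0 → ∃ n : ℤ, k x = n)
    {x₁ x₂ : E} (h₁ : x₁ ∈ D) (h₂ : x₂ ∈ D) (f₁ : f x₁ ≠ 0) (f₂ : f x₂ ≠ 0) : k x₁ = k x₂ := by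
  set u := x₂ - x₁ with hu
  have hcont : Continuous (fun t : ℂ => x₁ + t • u) := by fun_prop
  let D0 : Set ℂ := (fun t : ℂ => x₁ + t • u) ⁻¹' D
  have hD0 : IsOpen D0 := hDo.preimage hcont
  have hconv : Convex ℝ D0 := by
    intro a ha b hb s t hs ht hst
    have h1 : x₁ + (s • a + t • b) • u = s • (x₁ + a • u) + t • (x₁ + b • u) := by
      have h2 : x₁ = s • x₁ + t • x₁ := by rw [← add_smul, hst, one_smul]
      conv_lhs => rw [h2]
      rw [add_smul, smul_add, smul_add, smul_assoc, smul_assoc]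
      abel
    change x₁ + (s • a + t • b) • u ∈ D
    rw [h1]
    exact hD ha hb hs ht hst
  have e0 : x₁ + (0 : ℂ) • u = x₁ := by rw [zero_smul, add_zero]
  have e1 : x₁ + (1 : ℂ) • u = x₂ := by rw [one_smul, hu, add_sub_cancel]
  have h00 : (0 : ℂ) ∈ D0 := by
    change x₁ + (0 : ℂ) • u ∈ D
    rw [e0]
    exact h₁
  have h01 : (1 : ℂ) ∈ D0 := by
    change x₁ + (1 : ℂ) • u ∈ D
    rw [e1]
    exact h₂
  have key := int_const_one (D := D0) hD0 hconv (g := fun t => f (x₁ + t • u))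
    (k := fun t => k (x₁ + t • u)) (by
      intro t ht
      have h1 : DifferentiableAt ℂ f (x₁ + t • u) := hf.differentiableAt (hDo.mem_nhds ht)
      have h2 : DifferentiableAt ℂ (fun t : ℂ => x₁ + t • u) t := by fun_prop
      exact (DifferentiableAt.comp (g := f) t h1 h2).differentiableWithinAt)
    (hk.comp hcont.continuousOn (fun t ht => ⟨ht.1, ht.2⟩))
    (fun t ht hgt => hint _ ht hgt) h00 h01 (by simpa only [e0] using f₁)
    (by simpa only [e1] using f₂)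
  simp only [e0, e1] at key
  exact key

theorem ext : S_EXT := by
  intro m Y hch hpre φ u hφ hne hu hu0 hlog
  obtain ⟨h0, hh0c, hh0e⟩ := hlog
  -- density
  have hdense : ∀ y ∈ Y, ∀ W ∈ 𝓝 y, ∃ z ∈ W, z ∈ Y ∧ φ z ≠ 0 := by
    intro y hy W hW
    by_contra hcon
    push Not at hcon
    obtain ⟨W', hW'W, hW'o, hyW'⟩ := _root_.mem_nhds_iff.mp hW
    obtain ⟨y1, hy1, hy1φ⟩ := hne
    apply hy1φ
    exact ident m Y hch hpre φ hφ W' hW'o ⟨y, hy, hyW'⟩
      (fun z hz => hcon z (hW'W hz.2) hz.1) y1 hy1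
  -- local extensions
  have hloc : ∀ p ∈ Y, ∃ (V : Set (Fin m → ℂ)) (H : (Fin m → ℂ) → ℂ), IsOpen V ∧ p ∈ V ∧
      ContinuousOn H (Y ∩ V) ∧ (∀ y ∈ Y ∩ V, Complex.exp (H y) = u y) ∧
      ∀ y ∈ Y ∩ V, φ y ≠ 0 → H y = h0 y := by
    intro p hp
    obtain ⟨n, ψ, κ, V, hV, hpV, -, hψ, hψ0, hψV, hκ, hκψ⟩ := hch p hp univ univ_mem
    have hmem : ∀ x ∈ ball (0 : Fin n → ℂ) 1, ψ x ∈ Y ∩ V := by
      intro x hx
      rw [← hψV]
      exact mem_image_of_mem _ hx
    have hf := hol_comp_chart hφ hψ (fun x hx => (hmem x hx).1)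
    -- a logarithm on the ball
    have hsc : IsSimplyConnected (ball (0 : Fin n → ℂ) 1) := by
      have : ContractibleSpace (ball (0 : Fin n → ℂ) 1) :=
        (convex_ball (0 : Fin n → ℂ) 1).contractibleSpace ⟨0, mem_ball_self one_pos⟩
      exact inferInstanceAs (SimplyConnectedSpace (ball (0 : Fin n → ℂ) 1))
    have huψ : ContinuousOn (fun x => u (ψ x)) (ball (0 : Fin n → ℂ) 1) :=
      hu.comp hψ.continuousOn (fun x hx => (hmem x hx).1)
    obtain ⟨L, hLc, hLe⟩ := Complex.exists_continuousOn_eqOn_exp_comp hsc isOpen_ball huψ (by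
      rintro ⟨x, hx, hx0⟩
      exact hu0 _ (hmem x hx).1 hx0)
    have hLe' : ∀ x ∈ ball (0 : Fin n → ℂ) 1, Complex.exp (L x) = u (ψ x) := fun x hx => hLe hx
    -- the difference of the two logarithms
    let k : (Fin n → ℂ) → ℂ := fun x => (h0 (ψ x) - L x) / (2 * Real.pi * Complex.I)
    have h2pi : (2 * (Real.pi : ℂ) * Complex.I) ≠ 0 := Complex.two_pi_I_ne_zero
    have hkc : ContinuousOn k {x | x ∈ ball (0 : Fin n → ℂ) 1 ∧ φ (ψ x) ≠ 0} := by
      apply ContinuousOn.div_const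
      apply ContinuousOn.sub
      · exact hh0c.comp (hψ.continuousOn.mono (fun x hx => hx.1))
          (fun x hx => ⟨(hmem x hx.1).1, hx.2⟩)
      · exact hLc.mono (fun x hx => hx.1)
    have hkint : ∀ x, x ∈ ball (0 : Fin n → ℂ) 1 → φ (ψ x) ≠ 0 → ∃ n : ℤ, k x = n := by
      intro x hx hφx
      have h1 : Complex.exp (h0 (ψ x) - L x) = 1 := by
        rw [Complex.exp_sub, hh0e _ ⟨(hmem x hx).1, hφx⟩, hLe' x hx,
          div_self (hu0 _ (hmem x hx).1)]
      rw [Complex.exp_eq_one_iff] at h1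
      obtain ⟨a, ha⟩ := h1
      refine ⟨a, ?_⟩
      simp only [k]
      rw [ha, mul_div_assoc, div_self h2pi, mul_one]
    -- a point of the chart where `φ ≠ 0`
    obtain ⟨z, hzV, hzY, hzφ⟩ := hdense p hp V (hV.mem_nhds hpV)
    obtain ⟨x1, hx1, rfl⟩ : z ∈ ψ '' ball 0 1 := by
      rw [hψV]; exact ⟨hzY, hzV⟩
    have hconst : ∀ x ∈ ball (0 : Fin n → ℂ) 1, φ (ψ x) ≠ 0 → k x = k x1 := fun x hx hx' =>
      int_const isOpen_ball (convex_ball _ _) hf hkc hkint hx hx1 hx' hzφ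
    obtain ⟨a, ha⟩ := hkint x1 hx1 hzφ
    have hκm : ∀ y ∈ Y ∩ V, κ y ∈ ball (0 : Fin n → ℂ) 1 ∧ ψ (κ y) = y := by
      intro y hy
      rw [← hψV] at hy
      obtain ⟨x, hx, rfl⟩ := hy
      rw [hκψ x hx]
      exact ⟨hx, rfl⟩
    refine ⟨V, fun y => L (κ y) + a * (2 * Real.pi * Complex.I), hV, hpV, ?_, ?_, ?_⟩
    · exact (hLc.comp hκ (fun y hy => (hκm y hy).1)).add continuousOn_const
    · intro y hy
      rw [Complex.exp_add, Complex.exp_int_mul_two_pi_mul_I, mul_one, hLe' _ (hκm y hy).1,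
        (hκm y hy).2]
    · intro y hy hφy
      have h1 := hconst (κ y) (hκm y hy).1 (by rw [(hκm y hy).2]; exact hφy)
      rw [ha] at h1
      simp only [k] at h1
      rw [(hκm y hy).2, div_eq_iff h2pi] at h1
      linear_combination -h1
  choose! V H hVo hpV hHc hHe hHh using hloc
  -- two local extensions agree
  have hagree : ∀ p ∈ Y, ∀ y ∈ Y ∩ V p, H y y = H p y := by
    intro p hp y hy
    have hyV := hpV y hy.1
    have hl : (𝓝[Y] y).NeBot := mem_closure_iff_nhdsWithin_neBot.mp (subset_closure hy.1)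
    have h1 : Tendsto (H y) (𝓝[Y] y) (𝓝 (H y y)) := by
      have := (hHc y hy.1) y ⟨hy.1, hyV⟩
      have h2 : 𝓝[Y ∩ V y] y = 𝓝[Y] y := nhdsWithin_inter_of_mem' (mem_nhdsWithin_of_mem_nhds
        ((hVo y hy.1).mem_nhds hyV))
      rw [ContinuousWithinAt, h2] at this
      exact this
    have h2 : Tendsto (H p) (𝓝[Y] y) (𝓝 (H p y)) := by
      have := (hHc p hp) y hy
      have h2 : 𝓝[Y ∩ V p] y = 𝓝[Y] y := nhdsWithin_inter_of_mem' (mem_nhdsWithin_of_mem_nhds
        ((hVo p hp).mem_nhds hy.2))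
      rw [ContinuousWithinAt, h2] at this
      exact this
    refine tendsto_nhds_unique_of_frequently_eq h1 h2 ?_
    rw [Filter.frequently_iff]
    intro W hW
    obtain ⟨W', hW', hWW'⟩ := mem_nhdsWithin_iff_exists_mem_nhds_inter.mp hW
    obtain ⟨z, hz, hzY, hzφ⟩ := hdense y hy.1 _ (Filter.inter_mem hW' (Filter.inter_mem
      ((hVo y hy.1).mem_nhds hyV) ((hVo p hp).mem_nhds hy.2)))
    refine ⟨z, hWW' ⟨hz.1, hzY⟩, ?_⟩
    rw [hHh y hy.1 z ⟨hzY, hz.2.1⟩ hzφ, hHh p hp z ⟨hzY, hz.2.2⟩ hzφ]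
  refine ⟨fun y => H y y, ?_, fun y hy => hHe y hy y ⟨hy, hpV y hy⟩⟩
  intro p hp
  have h2 : 𝓝[Y ∩ V p] p = 𝓝[Y] p := nhdsWithin_inter_of_mem' (mem_nhdsWithin_of_mem_nhds
    ((hVo p hp).mem_nhds (hpV p hp)))
  have h1 : ContinuousWithinAt (H p) (Y ∩ V p) p := (hHc p hp) p ⟨hp, hpV p hp⟩
  have h3 : ContinuousWithinAt (fun y => H y y) (Y ∩ V p) p :=
    h1.congr (fun y hy => hagree p hp y hy) rfl
  rw [ContinuousWithinAt, h2] at h3
  exact h3

end Pool.Agent.Y155.Gor
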