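import Pool.Agent.Y225.Gor.Defs
import Pool.Agent.W481.Roots

/-!
# The sheets of a monic polynomial with simple roots, and the covering of an affine variety
-/

set_option autoImplicit false

open Metric Set Topology

namespace Pool.Agent.Y155.Gor

open Pool.Agent.W481 Pool.Agent.W327.F4 Pool.Agent.Y225.Gor

theorem contPoly_map {n : ℕ} {f : Polynomial (MvPolynomial (Fin n) ℂ)} (hf : f.Monic) :
    ContPoly (fun x : Fin n → ℂ => f.map (MvPolynomial.eval x)) := by
  refine ⟨fun i => ?_, f.natDegree, fun t => ?_⟩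
  · simp only [Polynomial.coeff_map]
    exact MvPolynomial.continuous_eval _
  · exact (hf.natDegree_map _).le

/-- near a point all of whose roots are simple, the roots are differentiable functions -/
theorem sheets {n : ℕ} {f : Polynomial (MvPolynomial (Fin n) ℂ)} (hf : f.Monic) (x₀ : Fin n → ℂ)
    (hx : ∀ᶠ x' in 𝓝 x₀, ∀ τ, ev x' τ f = 0 → ev x' τ (Polynomial.derivative f) ≠ 0) :
    ∃ r : ℝ, 0 < r ∧ ∃ T : Fin f.natDegree → (Fin n → ℂ) → ℂ,
      (∀ i, DifferentiableOn ℂ (T i) (ball x₀ r)) ∧
      ∀ x' ∈ ball x₀ r, Function.Injective (fun i => T i x') ∧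
        ∀ τ, ev x' τ f = 0 ↔ ∃ i, τ = T i x' := by
  classical
  have hcard := card_rts hf hx.self_of_nhds
  obtain ⟨U, hU1, hU2⟩ := (rts f x₀).finite_toSet.t2_separation
  let e : Fin f.natDegree ≃ rts f x₀ := (Finset.equivFinOfCardEq hcard).symm
  let V : Fin f.natDegree → Set ℂ := fun i => U (e i).1
  have hVo : ∀ i, IsOpen (V i) := fun i => (hU1 _).2
  have hVd : ∀ i j z, z ∈ V i → z ∈ V j → i = j := by
    intro i j z hi hj
    by_contra hne
    have h1 : (e i).1 ≠ (e j).1 := by
      intro h
      exact hne (e.injective (Subtype.ext h))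
    exact (Set.disjoint_left.1 (hU2 (e i).2 (e j).2 h1)) hi hj
  have hex : ∀ᶠ x' in 𝓝 x₀, ∀ i, ∃ z ∈ V i, ev x' z f = 0 := by
    rw [Filter.eventually_all]
    intro i
    have h0 : ev x₀ (e i).1 f = 0 := (mem_rts hf).1 (e i).2
    exact (contPoly_map hf).eventually_exists_root (fun t => hf.map _) x₀ (e i).1 h0
      ((hVo i).mem_nhds (hU1 _).1)
  obtain ⟨r, hr, hball⟩ := Metric.eventually_nhds_iff_ball.1 (hex.and hx)
  let T : Fin f.natDegree → (Fin n → ℂ) → ℂ := fun i x' =>
    if h : ∃ z ∈ V i, ev x' z f = 0 then Classical.choose h else 0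
  have hT : ∀ x' ∈ ball x₀ r, ∀ i, T i x' ∈ V i ∧ ev x' (T i x') f = 0 := by
    intro x' hx' i
    have h := (hball x' hx').1 i
    have h1 : T i x' = Classical.choose h := dif_pos h
    rw [h1]
    exact Classical.choose_spec h
  have hinj : ∀ x' ∈ ball x₀ r, Function.Injective (fun i => T i x') := by
    intro x' hx' i j hij
    have h1 := (hT x' hx' i).1
    have h2 := (hT x' hx' j).1
    have h3 : T i x' = T j x' := hij
    rw [h3] at h1
    exact hVd i j _ h1 h2
  have hroots : ∀ x' ∈ ball x₀ r, ∀ τ, ev x' τ f = 0 ↔ ∃ i, τ = T i x' := by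
    intro x' hx' τ
    constructor
    · intro h
      have himg : Finset.univ.image (fun i => T i x') = rts f x' := by
        apply Finset.eq_of_subset_of_card_le
        · intro σ hσ
          obtain ⟨i, -, rfl⟩ := Finset.mem_image.1 hσ
          exact (mem_rts hf).2 (hT x' hx' i).2
        · rw [Finset.card_image_of_injective _ (hinj x' hx'), Finset.card_univ, Fintype.card_fin]
          exact card_rts_le hf x'
      have h1 : τ ∈ rts f x' := (mem_rts hf).2 h
      rw [← himg] at h1
      obtain ⟨i, -, hi⟩ := Finset.mem_image.1 h1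
      exact ⟨i, hi.symm⟩
    · rintro ⟨i, rfl⟩
      exact (hT x' hx' i).2
  refine ⟨r, hr, T, ?_, fun x' hx' => ⟨hinj x' hx', hroots x' hx'⟩⟩
  intro i x' hx'
  apply DifferentiableAt.differentiableWithinAt
  have h1 := (hT x' hx' i)
  obtain ⟨T', hT1, hT2, hT3⟩ := loc_root f x' (T i x') h1.2 ((hball x' hx').2 _ h1.2)
  refine hT2.congr_of_eventuallyEq ?_
  have h4 : ∀ᶠ x'' in 𝓝 x', T' x'' ∈ V i := by
    refine hT2.continuousAt.eventually_mem ?_
    rw [hT1]
    exact (hVo i).mem_nhds h1.1
  have h5 : ∀ᶠ x'' in 𝓝 x', x'' ∈ ball x₀ r := isOpen_ball.mem_nhds hx'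
  filter_upwards [hT3, h4, h5] with x'' a b c
  obtain ⟨j, hj⟩ := (hroots x'' c _).1 a
  have h6 := (hT x'' c j).1
  rw [← hj] at h6
  have h7 : i = j := hVd i j _ b h6
  rw [hj, h7]

theorem eval_aeval_mv {m k : ℕ} (y : Fin m → ℂ) (p : Fin k → MvPolynomial (Fin m) ℂ)
    (D : MvPolynomial (Fin k) ℂ) :
    MvPolynomial.eval y (MvPolynomial.aeval p D) =
      MvPolynomial.eval (fun i => MvPolynomial.eval y (p i)) D := by
  induction D using MvPolynomial.induction_on with
  | C a => rw [MvPolynomial.aeval_C, MvPolynomial.algebraMap_eq, MvPolynomial.eval_C,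
      MvPolynomial.eval_C]
  | add a b ha hb => rw [map_add, map_add, map_add, ha, hb]
  | mul_X a i ha => rw [map_mul, map_mul, map_mul, ha, MvPolynomial.aeval_X, MvPolynomial.eval_X]

theorem pcov : S_PCOV := by
  intro m Y I hI hY k p Θ f Q δ hf hδ hdom hpt hlift
  have hmem : ∀ y ∈ Y, ∀ P ∈ I, MvPolynomial.eval y P = 0 := fun y hy => (hY y).1 hy
  have hdm : ∀ (n : ℕ) (P : MvPolynomial (Fin n) ℂ),
      Differentiable ℂ (fun x : Fin n → ℂ => MvPolynomial.eval x P) := by
    intro n P x
    exact ((AnalyticOnNhd.eval_mvPolynomial P) x (Set.mem_univ _)).differentiableAt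
  refine ⟨?_, hδ, ?_, ?_⟩
  · rw [differentiable_pi]
    intro i
    exact hdm _ _
  · intro D hD
    by_contra hcon
    push Not at hcon
    apply hD
    apply hdom
    rw [hI]
    intro y hy
    have h1 := hcon y hy
    exact (eval_aeval_mv y p D).trans h1
  · intro z hz
    have hev : ∀ᶠ z' in 𝓝 z, MvPolynomial.eval z' δ ≠ 0 :=
      (MvPolynomial.continuous_eval δ).continuousAt.eventually_ne hz
    have hx : ∀ᶠ x' in 𝓝 z, ∀ τ, ev x' τ f = 0 → ev x' τ (Polynomial.derivative f) ≠ 0 := by
      filter_upwards [hev] with x' h1 τ h2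
      exact (hlift x' τ h1 h2).1
    obtain ⟨r, hr, T, hT1, hT2⟩ := sheets hf z hx
    obtain ⟨r', hr', hb⟩ := Metric.eventually_nhds_iff_ball.1 hev
    refine ⟨min r r', lt_min hr hr', fun i z' j => ev z' (T i z') (Q j) / MvPolynomial.eval z' δ,
      ?_, ?_⟩
    · intro i
      rw [differentiableOn_pi]
      intro j
      change DifferentiableOn ℂ (fun z' : Fin k → ℂ => ev z' (T i z') (Q j) /
        MvPolynomial.eval z' δ) _
      have h1 : Differentiable ℂ (fun w : (Fin k → ℂ) × ℂ => ev w.1 w.2 (Q j)) :=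
        fun w => (analytic_ev (Q j) w).differentiableAt
      have h2 : DifferentiableOn ℂ (fun z' : Fin k → ℂ => (z', T i z')) (ball z (min r r')) :=
        differentiableOn_id.prodMk ((hT1 i).mono (ball_subset_ball (min_le_left _ _)))
      have h3 : DifferentiableOn ℂ (fun z' : Fin k → ℂ => ev z' (T i z') (Q j))
          (ball z (min r r')) := h1.comp_differentiableOn h2
      have h4 : DifferentiableOn ℂ (fun z' : Fin k → ℂ => (MvPolynomial.eval z' δ)⁻¹)
          (ball z (min r r')) := (hdm k δ).differentiableOn.fun_inv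
        fun z' hz' => hb z' (ball_subset_ball (min_le_right _ _) hz')
      simp only [div_eq_mul_inv]
      exact h3.fun_mul h4
    · intro z' hz'
      have hz1 := ball_subset_ball (min_le_left _ _) hz'
      have hz2 := hb z' (ball_subset_ball (min_le_right _ _) hz')
      obtain ⟨hi1, hi2⟩ := hT2 z' hz1
      -- points of the fibre
      have key : ∀ x : Fin m → ℂ, (∀ P ∈ I, MvPolynomial.eval x P = 0) →
          (fun i => MvPolynomial.eval x (p i)) = z' → ∀ i, MvPolynomial.eval x Θ = T i z' →
          x = fun j => ev z' (T i z') (Q j) / MvPolynomial.eval z' δ := by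
        intro x h1 h2 i h3
        funext j
        have h4 := (hpt x h1).2 j
        rw [h2, h3] at h4
        rw [← h4]
        field_simp
      have key2 : ∀ i, ∃ x : Fin m → ℂ, (∀ P ∈ I, MvPolynomial.eval x P = 0) ∧
          (fun i => MvPolynomial.eval x (p i)) = z' ∧ MvPolynomial.eval x Θ = T i z' ∧
          x = fun j => ev z' (T i z') (Q j) / MvPolynomial.eval z' δ := by
        intro i
        obtain ⟨x, h1, h2, h3⟩ := (hlift z' (T i z') hz2 ((hi2 _).2 ⟨i, rfl⟩)).2
        exact ⟨x, h1, h2, h3, key x h1 h2 i h3⟩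
      refine ⟨hz2, ?_, ?_⟩
      · intro i i' hii
        obtain ⟨x, -, -, h3, h4⟩ := key2 i
        obtain ⟨x', -, -, h3', h4'⟩ := key2 i'
        apply hi1
        change T i z' = T i' z'
        rw [← h3, ← h3', h4, h4']
        exact congrArg (fun x => MvPolynomial.eval x Θ) hii
      · ext y
        constructor
        · rintro ⟨hy, hyz⟩
          have h1 := hmem y hy
          obtain ⟨i, hi⟩ := (hi2 (MvPolynomial.eval y Θ)).1 (by
            have := (hpt y h1).1
            have h2 : (fun i => MvPolynomial.eval y (p i)) = z' := hyz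
            rwa [h2] at this)
          exact ⟨i, (key y h1 hyz i hi).symm⟩
        · rintro ⟨i, rfl⟩
          obtain ⟨x, h1, h2, h3, h4⟩ := key2 i
          have h5 : x ∈ Y := (hY x).2 h1
          change (fun j => ev z' (T i z') (Q j) / MvPolynomial.eval z' δ) ∈ _
          rw [← h4]
          exact ⟨h5, h2⟩

end Pool.Agent.Y155.Gor
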