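import Pool.Agent.Y155.Gor.PCOV

/-!
# Lines through a point outside a hypersurface: continuity of the intersection points
-/

set_option autoImplicit false

open Metric Set Topology Polynomial

namespace Pool.Agent.Y155.Gor

open Pool.Agent.W481 Pool.Agent.W327.F4 Pool.Agent.Y225.Gor

/-- the monic squarefree part of a monic polynomial over an integrally closed domain of
characteristic zero -/
theorem rad_monic {A : Type*} [CommRing A] [IsDomain A] [IsIntegrallyClosed A] [CharZero A]
    (P : A[X]) (hP : P.Monic) :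
    ∃ (q u v : A[X]) (d : A) (N : ℕ), q.Monic ∧ d ≠ 0 ∧ u * q + v * derivative q = C d ∧
      q ∣ P ∧ P ∣ q ^ N := by
  classical
  let K := FractionRing A
  let φ : A →+* K := algebraMap A K
  have hφ : Function.Injective φ := IsFractionRing.injective _ _
  have hφ' : Function.Injective (Polynomial.map φ) := Polynomial.map_injective φ hφ
  have : CharZero K := charZero_of_injective_algebraMap hφ
  have hcl : ∀ p : Polynomial K, ∃ (a : A) (p' : Polynomial A), a ≠ 0 ∧
      p'.map φ = C (φ a) * p := by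
    intro p
    obtain ⟨a, ha, h⟩ := IsLocalization.integerNormalization_spec
      (nonZeroDivisors A) p
    refine ⟨a, _, nonZeroDivisors.ne_zero ha, h.trans ?_⟩
    rw [← smul_eq_C_mul]
    exact (algebraMap_smul K a p).symm
  have hPm : P.map φ ≠ 0 := (hP.map φ).ne_zero
  set Q : Polynomial K := UniqueFactorizationMonoid.radical (P.map φ) with hQ
  have hsq : Squarefree Q := UniqueFactorizationMonoid.squarefree_radical
  have hsep : Q.Separable := PerfectField.separable_iff_squarefree.2 hsq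
  have hdvd : Q ∣ P.map φ := UniqueFactorizationMonoid.radical_dvd_self
  obtain ⟨U, V, hUV⟩ := hsep
  obtain ⟨N, hN⟩ := UniqueFactorizationMonoid.exists_dvd_radical_self_pow hPm
  rw [← hQ] at hN
  obtain ⟨q, hq⟩ := IsIntegrallyClosed.eq_map_mul_C_of_dvd K hP hdvd
  have hQ0 : Q ≠ 0 := ne_zero_of_dvd_ne_zero hPm hdvd
  set c := leadingCoeff Q with hc
  have hc0 : c ≠ 0 := leadingCoeff_ne_zero.2 hQ0
  have hqm : q.Monic := by
    apply monic_of_injective hφ
    have h1 : leadingCoeff (q.map φ) * c = c := by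
      conv_rhs => rw [hc, ← hq]
      rw [leadingCoeff_mul, leadingCoeff_C]
    exact mul_right_cancel₀ hc0 (h1.trans (one_mul c).symm)
  obtain ⟨a₁, u, ha₁, hu⟩ := hcl (U * C c)
  obtain ⟨a₂, v, ha₂, hv⟩ := hcl (V * C c)
  refine ⟨q, C a₂ * u, C a₁ * v, a₁ * a₂, N, hqm, mul_ne_zero ha₁ ha₂, ?_, ?_, ?_⟩
  · apply hφ'
    simp only [Polynomial.map_add, Polynomial.map_mul, hu, hv, map_C, map_mul, ← derivative_map]
    have h2 : derivative Q = derivative (q.map φ) * C c := by
      rw [← hq, derivative_mul, derivative_C, mul_zero, add_zero]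
    have h3 : Q = q.map φ * C c := hq.symm
    rw [h2] at hUV
    rw [h3] at hUV
    linear_combination (C (φ a₁) * C (φ a₂)) * hUV
  · rw [← Polynomial.map_dvd_map φ hφ hqm]
    refine dvd_trans ?_ hdvd
    rw [← hq]
    exact Dvd.intro _ rfl
  · rw [← Polynomial.map_dvd_map φ hφ hP, Polynomial.map_pow]
    refine dvd_trans hN ?_
    conv_lhs => rw [← hq]
    rw [mul_pow]
    have hu : IsUnit (C c ^ N) := (isUnit_C.2 hc0.isUnit).pow N
    exact (hu.mul_right_dvd).2 dvd_rfl

/-- the polynomial `t ↦ δ (t v)` -/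
noncomputable def radial {k : ℕ} (δ : MvPolynomial (Fin k) ℂ) : (MvPolynomial (Fin k) ℂ)[X] :=
  MvPolynomial.eval₂ (C.comp MvPolynomial.C) (fun i => X * C (MvPolynomial.X i)) δ

theorem ev_radial {k : ℕ} (δ : MvPolynomial (Fin k) ℂ) (v : Fin k → ℂ) (t : ℂ) :
    ev v t (radial δ) = MvPolynomial.eval (t • v) δ := by
  unfold radial
  induction δ using MvPolynomial.induction_on with
  | C a => rw [MvPolynomial.eval₂_C, MvPolynomial.eval_C, RingHom.comp_apply, ev_C,
      MvPolynomial.eval_C]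
  | add a b ha hb => rw [MvPolynomial.eval₂_add, ev_add, map_add, ha, hb]
  | mul_X a i ha => rw [MvPolynomial.eval₂_mul, ev_mul, map_mul, ha, MvPolynomial.eval₂_X, ev_mul,
      ev_X, ev_C, MvPolynomial.eval_X, MvPolynomial.eval_X, Pi.smul_apply, smul_eq_mul]

theorem radial_coeff_zero {k : ℕ} (δ : MvPolynomial (Fin k) ℂ) :
    (radial δ).coeff 0 = MvPolynomial.C (MvPolynomial.eval (0 : Fin k → ℂ) δ) := by
  apply MvPolynomial.funext
  intro v
  have h := ev_radial δ v 0
  rw [zero_smul] at h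
  rw [MvPolynomial.eval_C, ← h, ev, ← coeff_zero_eq_eval_zero, coeff_map]

theorem root : S_ROOT := by
  intro k δ hδ
  set F := radial δ with hF
  set c := MvPolynomial.eval (0 : Fin k → ℂ) δ with hc
  have hF0 : F.coeff 0 = MvPolynomial.C c := radial_coeff_zero δ
  have hC0 : (MvPolynomial.C c : MvPolynomial (Fin k) ℂ) ≠ 0 := by
    rw [Ne, MvPolynomial.C_eq_zero]; exact hδ
  have hFne : F ≠ 0 := by
    intro h
    rw [h, coeff_zero] at hF0
    exact hC0 hF0.symm
  have htr : F.reverse.leadingCoeff = MvPolynomial.C c := by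
    rw [reverse_leadingCoeff, trailingCoeff, natTrailingDegree_eq_zero.2 (Or.inr ?_), hF0]
    rw [hF0]; exact hC0
  set P : (MvPolynomial (Fin k) ℂ)[X] := C (MvPolynomial.C c⁻¹) * F.reverse with hPdef
  have hPm : P.Monic := by
    rw [Monic, hPdef, leadingCoeff_mul, leadingCoeff_C, htr, ← MvPolynomial.C_mul,
      inv_mul_cancel₀ hδ, MvPolynomial.C_1]
  obtain ⟨q, u, v, d, N, hqm, hd, huv, hqP, hPq⟩ := rad_monic P hPm
  have hroots : ∀ w τ, ev w τ q = 0 ↔ ev w τ F.reverse = 0 := by
    intro w τ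
    have h1 : ev w τ P = 0 ↔ ev w τ F.reverse = 0 := by
      rw [hPdef, ev_mul, ev_C, MvPolynomial.eval_C, mul_eq_zero]
      simp [hδ]
    rw [← h1]
    constructor
    · intro h
      obtain ⟨w', hw'⟩ := hqP
      rw [hw', ev_mul, h, zero_mul]
    · intro h
      obtain ⟨w', hw'⟩ := hPq
      have h2 := congrArg (ev w τ) hw'
      rw [ev_pow, ev_mul, h, zero_mul] at h2
      exact eq_zero_of_pow_eq_zero h2
  refine ⟨F.leadingCoeff * d, mul_ne_zero (leadingCoeff_ne_zero.2 hFne) hd, ?_⟩
  intro v₁ hv₁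
  have hcont : ∀ᶠ w in 𝓝 v₁, MvPolynomial.eval w (F.leadingCoeff * d) ≠ 0 :=
    (MvPolynomial.continuous_eval _).continuousAt.eventually_ne hv₁
  have hsimple : ∀ᶠ w in 𝓝 v₁, ∀ τ, ev w τ q = 0 → ev w τ (derivative q) ≠ 0 := by
    filter_upwards [hcont] with w hw τ h1 h2
    rw [map_mul] at hw
    have h3 := congrArg (ev w τ) huv
    rw [ev_add, ev_mul, ev_mul, h1, h2, ev_C, mul_zero, mul_zero, add_zero] at h3
    exact right_ne_zero_of_mul hw h3.symm
  obtain ⟨r, hr, T, hT1, hT2⟩ := sheets hqm v₁ hsimple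
  obtain ⟨r', hr', hb⟩ := Metric.eventually_nhds_iff_ball.1 hcont
  have hTne : ∀ w ∈ ball v₁ (min r r'), ∀ i, T i w ≠ 0 := by
    intro w hw i h0
    have h1 := (hT2 w (ball_subset_ball (min_le_left _ _) hw)).2 (T i w)
    have h2 := (hroots w (T i w)).1 (h1.2 ⟨i, rfl⟩)
    rw [h0, ev, ← coeff_zero_eq_eval_zero, coeff_map, coeff_zero_reverse] at h2
    have h3 := hb w (ball_subset_ball (min_le_right _ _) hw)
    rw [map_mul] at h3
    exact left_ne_zero_of_mul h3 h2
  have hrec : ∀ w (t : ℂ), t ≠ 0 → (ev w t⁻¹ F.reverse = 0 ↔ MvPolynomial.eval (t • w) δ = 0) := by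
    intro w t ht
    let _ := invertibleOfNonzero ht
    have h1 := eval₂_reverse_eq_zero_iff (MvPolynomial.eval w) t F
    rw [invOf_eq_inv] at h1
    rw [← ev_radial, ev, ev, eval_map, eval_map]
    exact h1
  refine ⟨min r r', q.natDegree, fun i w => (T i w)⁻¹, lt_min hr hr', ?_, ?_⟩
  · intro i
    refine ContinuousOn.inv₀ ?_ fun w hw => hTne w hw i
    exact ((hT1 i).mono (ball_subset_ball (min_le_left _ _))).continuousOn
  · intro w hw
    obtain ⟨h1, h2⟩ := hT2 w (ball_subset_ball (min_le_left _ _) hw)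
    constructor
    · intro i j hij
      exact h1 (inv_injective hij)
    · intro t
      constructor
      · intro h
        have ht : t ≠ 0 := by
          rintro rfl
          rw [zero_smul] at h
          exact hδ h
        have h3 := (hroots w t⁻¹).2 ((hrec w t ht).2 h)
        obtain ⟨i, hi⟩ := (h2 _).1 h3
        refine ⟨i, ?_⟩
        change t = (T i w)⁻¹
        rw [← hi, inv_inv]
      · rintro ⟨i, rfl⟩
        have h3 : T i w ≠ 0 := hTne w hw i
        rw [← hrec w _ (inv_ne_zero h3), inv_inv, ← hroots, h2]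
        exact ⟨i, rfl⟩

end Pool.Agent.Y155.Gor
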